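import Pool.Agent.H44.BH.Refl

set_option autoImplicit false

namespace Pool.Agent.H44.BH

open Finset

variable {X : Type*} [NormedAddCommGroup X] [NormedSpace ℝ X]

/-- normalized 1-unconditional basis (given by density of the span) -/
structure UB (b : ℕ → X) : Prop where
  norm : ∀ n, ‖b n‖ = 1
  dense : (Submodule.span ℝ (Set.range b)).topologicalClosure = ⊤
  sign : ∀ (s : Finset ℕ) (a ε : ℕ → ℝ), (∀ n, |ε n| = 1) →
    ‖∑ n ∈ s, (ε n * a n) • b n‖ = ‖∑ n ∈ s, a n • b n‖

/-- the coordinate functionals of a basis -/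
structure Coord (b : ℕ → X) (c : ℕ → X →L[ℝ] ℝ) : Prop where
  bio : ∀ i j, c i (b j) = if i = j then 1 else 0
  hsum : ∀ x, HasSum (fun j => c j x • b j) x

lemma UB.contract {b : ℕ → X} (hb : UB b) (s : Finset ℕ) (a l : ℕ → ℝ) (hl : ∀ n, |l n| ≤ 1) :
    ‖∑ n ∈ s, (l n * a n) • b n‖ ≤ ‖∑ n ∈ s, a n • b n‖ := by
  have key : ∀ t : Finset ℕ, ‖∑ n ∈ s, ((if n ∈ t then l n else 1) * a n) • b n‖
      ≤ ‖∑ n ∈ s, a n • b n‖ := by
    intro t
    induction t using Finset.induction_on with
    | empty => simp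
    | insert m t hm ih =>
      refine le_trans ?_ ih
      set a' : ℕ → ℝ := fun n => (if n ∈ t then l n else 1) * a n with ha'
      have h1 : ∑ n ∈ s, ((if n ∈ insert m t then l n else 1) * a n) • b n
          = ((1 + l m) / 2) • ∑ n ∈ s, a' n • b n
            + ((1 - l m) / 2) • ∑ n ∈ s, ((if n = m then -1 else 1) * a' n) • b n := by
        rw [Finset.smul_sum, Finset.smul_sum, ← Finset.sum_add_distrib]
        refine Finset.sum_congr rfl fun n _ => ?_
        rw [smul_smul, smul_smul, ← add_smul]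
        congr 1
        by_cases hn : n = m
        · subst hn
          simp only [ha', Finset.mem_insert_self, if_true, hm, if_false]
          ring
        · simp only [ha', Finset.mem_insert, hn, false_or, if_false]
          split_ifs <;> ring
      have h2 : ‖∑ n ∈ s, ((if n = m then -1 else 1) * a' n) • b n‖ = ‖∑ n ∈ s, a' n • b n‖ :=
        hb.sign s a' (fun n => if n = m then -1 else 1) (by intro n; split_ifs <;> simp)
      rw [h1]
      refine (norm_add_le _ _).trans ?_
      rw [norm_smul, norm_smul, h2]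
      have h3 := abs_le.1 (hl m)
      rw [Real.norm_eq_abs, Real.norm_eq_abs, abs_of_nonneg (by linarith), abs_of_nonneg (by linarith)]
      have : (1 + l m) / 2 * ‖∑ n ∈ s, a' n • b n‖ + (1 - l m) / 2 * ‖∑ n ∈ s, a' n • b n‖
        = ‖∑ n ∈ s, a' n • b n‖ := by ring
      rw [this]
  have := key s
  refine le_trans (le_of_eq ?_) this
  congr 1
  exact Finset.sum_congr rfl fun n hn => by simp [hn]

lemma UB.sum_le {b : ℕ → X} (hb : UB b) {s t : Finset ℕ} (hst : s ⊆ t) (a : ℕ → ℝ) :
    ‖∑ n ∈ s, a n • b n‖ ≤ ‖∑ n ∈ t, a n • b n‖ := by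
  have h := hb.contract t a (fun n => if n ∈ s then 1 else 0) (by intro n; split_ifs <;> simp)
  refine le_trans (le_of_eq ?_) h
  congr 1
  rw [← Finset.sum_subset hst (f := fun n => ((if n ∈ s then (1 : ℝ) else 0) * a n) • b n)]
  · exact Finset.sum_congr rfl fun n hn => by simp [hn]
  · intro n _ hn
    simp [hn]

lemma UB.coeff_le {b : ℕ → X} (hb : UB b) (s : Finset ℕ) (a : ℕ → ℝ) {m : ℕ} (hm : m ∈ s) :
    |a m| ≤ ‖∑ n ∈ s, a n • b n‖ := by
  have h := hb.sum_le (Finset.singleton_subset_iff.2 hm) a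
  rw [Finset.sum_singleton, norm_smul, hb.norm, mul_one, Real.norm_eq_abs] at h
  exact h

lemma UB.exists_coord {b : ℕ → X} (hb : UB b) : ∃ c : ℕ → X →L[ℝ] ℝ, Coord b c := by
  classical
  set Lb : (ℕ →₀ ℝ) →ₗ[ℝ] X := Finsupp.linearCombination ℝ b with hLb
  have hval : ∀ a : ℕ →₀ ℝ, Lb a = ∑ n ∈ a.support, a n • b n := by
    intro a
    rw [hLb, Finsupp.linearCombination_apply, Finsupp.sum]
  have hbd : ∀ (a : ℕ →₀ ℝ) (m : ℕ), |a m| ≤ ‖Lb a‖ := by
    intro a m
    by_cases hm : m ∈ a.support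
    · rw [hval]; exact hb.coeff_le _ _ hm
    · rw [Finsupp.notMem_support_iff.1 hm]; simp
  have hinj : Function.Injective Lb := by
    rw [injective_iff_map_eq_zero]
    intro a ha
    ext m
    have := hbd a m
    rw [ha, norm_zero] at this
    simpa using abs_nonpos_iff.1 this
  let E := LinearEquiv.ofInjective Lb hinj
  have hE : ∀ a, ((E a : LinearMap.range Lb) : X) = Lb a := fun a => rfl
  let f0 : ℕ → (LinearMap.range Lb) →ₗ[ℝ] ℝ := fun m => (Finsupp.lapply m) ∘ₗ E.symm.toLinearMap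
  have hf0 : ∀ m (y : LinearMap.range Lb), ‖f0 m y‖ ≤ 1 * ‖y‖ := by
    intro m y
    obtain ⟨a, rfl⟩ := E.surjective y
    rw [one_mul]
    have : f0 m (E a) = a m := by simp [f0]
    rw [this, Real.norm_eq_abs]
    exact hbd a m
  have hex : ∀ m, ∃ g : X →L[ℝ] ℝ, ∀ a : ℕ →₀ ℝ, g (Lb a) = a m := by
    intro m
    obtain ⟨g, hg, _⟩ := _root_.exists_extension_norm_eq (LinearMap.range Lb)
      ((f0 m).mkContinuous 1 (hf0 m))
    refine ⟨g, fun a => ?_⟩
    have := hg (E a)
    rw [hE] at this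
    rw [this]
    simp [f0]
  choose c hc using hex
  have hspan : (LinearMap.range Lb).topologicalClosure = ⊤ := by
    rw [hLb, Finsupp.range_linearCombination]
    exact hb.dense
  have hdense : Dense (LinearMap.range Lb : Set X) :=
    Submodule.dense_iff_topologicalClosure_eq_top.2 hspan
  have hcontr : ∀ (s : Finset ℕ) (x : X), ‖∑ j ∈ s, c j x • b j‖ ≤ ‖x‖ := by
    intro s x
    have hclosed : IsClosed {x : X | ‖∑ j ∈ s, c j x • b j‖ ≤ ‖x‖} :=
      isClosed_le (by fun_prop) continuous_norm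
    have hsub : (LinearMap.range Lb : Set X) ⊆ {x : X | ‖∑ j ∈ s, c j x • b j‖ ≤ ‖x‖} := by
      rintro _ ⟨a, rfl⟩
      simp only [Set.mem_setOf_eq, hc]
      have h1 : ∑ j ∈ a.support, a j • b j = ∑ j ∈ s ∪ a.support, a j • b j := by
        refine Finset.sum_subset Finset.subset_union_right ?_
        intro n _ hn
        rw [Finsupp.notMem_support_iff.1 hn, zero_smul]
      rw [hval, h1]
      exact hb.sum_le Finset.subset_union_left _
    exact (hclosed.closure_subset_iff.2 hsub) (hdense x)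
  refine ⟨c, ⟨?_, ?_⟩⟩
  · intro i j
    have : b j = Lb (Finsupp.single j 1) := by rw [hLb]; simp
    rw [this, hc, Finsupp.single_apply]
    simp [eq_comm]
  · intro x
    rw [HasSum, Metric.tendsto_nhds]
    intro ε hε
    obtain ⟨y, hy, hxy⟩ := Metric.dense_iff.1 hdense x (ε / 2) (by positivity)
    obtain ⟨a, rfl⟩ := hxy
    rw [SummationFilter.unconditional_filter, Filter.eventually_atTop]
    refine ⟨a.support, fun s hs => ?_⟩
    rw [Metric.mem_ball, dist_eq_norm] at hy
    have h1 : ∑ j ∈ s, c j (Lb a) • b j = Lb a := by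
      simp only [hc]
      rw [hval]
      symm
      refine Finset.sum_subset hs ?_
      intro n _ hn
      rw [Finsupp.notMem_support_iff.1 hn, zero_smul]
    have h2 : ∑ j ∈ s, c j x • b j - x = ∑ j ∈ s, c j (x - Lb a) • b j + (Lb a - x) := by
      simp only [map_sub, sub_smul, Finset.sum_sub_distrib, h1]
      abel
    rw [dist_eq_norm, h2]
    have h3 := hcontr s (x - Lb a)
    have h4 := norm_add_le (∑ j ∈ s, c j (x - Lb a) • b j) (Lb a - x)
    have h5 : ‖x - Lb a‖ = ‖Lb a - x‖ := norm_sub_rev _ _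
    linarith

end Pool.Agent.H44.BH
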