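import Mathlib

set_option autoImplicit false

namespace Pool.Agent.H44.BH

/-- data for Bohnenblust's functional equation -/
structure BF (F : ℝ → ℝ → ℝ) : Prop where
  hom : ∀ t x y, 0 ≤ t → 0 ≤ x → 0 ≤ y → F (t * x) (t * y) = t * F x y
  left : ∀ x, 0 ≤ x → F x 0 = x
  right : ∀ y, 0 ≤ y → F 0 y = y
  mono : ∀ x x' y y', 0 ≤ x → x ≤ x' → 0 ≤ y → y ≤ y' → F x y ≤ F x' y'
  assoc : ∀ x y z, 0 ≤ x → 0 ≤ y → 0 ≤ z → F (F x y) z = F x (F y z)
  le_two : F 1 1 ≤ 2

namespace BF

variable {F : ℝ → ℝ → ℝ}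

lemma le_left (h : BF F) {x y : ℝ} (hx : 0 ≤ x) (hy : 0 ≤ y) : x ≤ F x y := by
  have := h.mono x x 0 y hx le_rfl le_rfl hy
  rwa [h.left x hx] at this

lemma le_right (h : BF F) {x y : ℝ} (hx : 0 ≤ x) (hy : 0 ≤ y) : y ≤ F x y := by
  have := h.mono 0 x y y le_rfl hx hy le_rfl
  rwa [h.right y hy] at this

lemma nonneg (h : BF F) {x y : ℝ} (hx : 0 ≤ x) (hy : 0 ≤ y) : 0 ≤ F x y :=
  hx.trans (h.le_left hx hy)

/-- the norm of `(1, ..., 1)` -/
def phi (F : ℝ → ℝ → ℝ) : ℕ → ℝ
  | 0 => 0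
  | n + 1 => F (phi F n) 1

lemma phi_nonneg (h : BF F) (n : ℕ) : 0 ≤ phi F n := by
  induction n with
  | zero => exact le_rfl
  | succ n ih => exact h.nonneg ih zero_le_one

lemma phi_one (h : BF F) : phi F 1 = 1 := by
  simp only [phi]
  exact h.right 1 zero_le_one

lemma phi_two (h : BF F) : phi F 2 = F 1 1 := by
  have : phi F 2 = F (phi F 1) 1 := rfl
  rw [this, h.phi_one]

lemma phi_mono (h : BF F) : Monotone (phi F) :=
  monotone_nat_of_le_succ fun n => h.le_left (h.phi_nonneg n) zero_le_one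

lemma phi_add (h : BF F) (n m : ℕ) : phi F (n + m) = F (phi F n) (phi F m) := by
  induction m with
  | zero => simp only [phi, add_zero]; rw [h.left _ (h.phi_nonneg n)]
  | succ m ih =>
    show F (phi F (n + m)) 1 = F (phi F n) (F (phi F m) 1)
    rw [ih, h.assoc _ _ _ (h.phi_nonneg n) (h.phi_nonneg m) zero_le_one]

lemma phi_mul (h : BF F) (n m : ℕ) : phi F (n * m) = phi F n * phi F m := by
  induction m with
  | zero => simp [phi]
  | succ m ih =>
    rw [Nat.mul_succ, h.phi_add, ih]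
    have := h.hom (phi F n) (phi F m) 1 (h.phi_nonneg n) (h.phi_nonneg m) zero_le_one
    rw [mul_one] at this
    rw [this]
    rfl

lemma phi_pow (h : BF F) (n k : ℕ) : phi F (n ^ k) = phi F n ^ k := by
  induction k with
  | zero => simp [h.phi_one]
  | succ k ih => rw [pow_succ, h.phi_mul, ih, pow_succ]

lemma one_le_phi (h : BF F) {n : ℕ} (hn : 1 ≤ n) : 1 ≤ phi F n := by
  have := h.phi_mono hn
  rwa [h.phi_one] at this

lemma eq_max (h : BF F) (h1 : F 1 1 = 1) {x y : ℝ} (hx : 0 ≤ x) (hy : 0 ≤ y) :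
    F x y = max x y := by
  apply le_antisymm
  · have hm : 0 ≤ max x y := le_max_of_le_left hx
    have a := h.mono x (max x y) y (max x y) hx (le_max_left _ _) hy (le_max_right _ _)
    have b := h.hom (max x y) 1 1 hm zero_le_one zero_le_one
    rw [mul_one, h1, mul_one] at b
    rwa [b] at a
  · exact max_le (h.le_left hx hy) (h.le_right hx hy)

lemma phi_log (h : BF F) (h1 : 1 < phi F 2) {n : ℕ} (hn : 1 ≤ n) :
    Real.log (phi F n) * Real.log 2 = Real.log (phi F 2) * Real.log n := by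
  set a := Real.log (phi F 2) with ha
  set b := Real.log (phi F n) with hb
  set l2 := Real.log 2 with hl2
  set ln := Real.log n with hln
  have ha0 : 0 < a := Real.log_pos h1
  have hl20 : 0 < l2 := Real.log_pos one_lt_two
  have hphin : 0 < phi F n := lt_of_lt_of_le one_pos (h.one_le_phi hn)
  have hphi2 : 0 < phi F 2 := by linarith
  have key : ∀ k : ℕ, |(k : ℝ) * (b * l2 - a * ln)| ≤ a * l2 := by
    intro k
    have hnk : n ^ k ≠ 0 := pow_ne_zero _ (by omega)
    have j1 : 2 ^ (Nat.log 2 (n ^ k)) ≤ n ^ k := Nat.pow_log_le_self 2 hnk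
    have j2 : n ^ k ≤ 2 ^ (Nat.log 2 (n ^ k) + 1) :=
      (Nat.lt_pow_succ_log_self one_lt_two (n ^ k)).le
    set j := Nat.log 2 (n ^ k)
    have p1 := h.phi_mono j1
    have p2 := h.phi_mono j2
    rw [h.phi_pow, h.phi_pow] at p1 p2
    have q1 := Real.log_le_log (by positivity) p1
    have q2 := Real.log_le_log (by positivity) p2
    rw [Real.log_pow, Real.log_pow, ← ha, ← hb] at q1 q2
    have c1 : ((2 : ℝ)) ^ j ≤ (n : ℝ) ^ k := by exact_mod_cast j1
    have c2 : (n : ℝ) ^ k ≤ (2 : ℝ) ^ (j + 1) := by exact_mod_cast j2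
    have hn0 : (0 : ℝ) < n := by exact_mod_cast hn
    have r1 := Real.log_le_log (by positivity) c1
    have r2 := Real.log_le_log (by positivity) c2
    rw [Real.log_pow, Real.log_pow, ← hl2, ← hln] at r1 r2
    push_cast at q2 r2
    rw [abs_le]
    constructor
    · nlinarith
    · nlinarith
  by_contra hne
  have hne' : b * l2 - a * ln ≠ 0 := sub_ne_zero.2 hne
  obtain ⟨k, hk⟩ := exists_nat_gt (a * l2 / |b * l2 - a * ln|)
  rw [div_lt_iff₀ (abs_pos.2 hne')] at hk
  have := key k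
  rw [abs_mul, Nat.abs_cast] at this
  linarith

lemma phi_rpow (h : BF F) (h1 : 1 < phi F 2) (n : ℕ) :
    phi F n = (n : ℝ) ^ (Real.log (phi F 2) / Real.log 2) := by
  have hl20 : 0 < Real.log 2 := Real.log_pos one_lt_two
  have ha0 : 0 < Real.log (phi F 2) := Real.log_pos h1
  rcases Nat.eq_zero_or_pos n with rfl | hn
  · rw [Nat.cast_zero, Real.zero_rpow (div_pos ha0 hl20).ne']
    rfl
  · have hn0 : (0 : ℝ) < n := by exact_mod_cast hn
    have hphin : 0 < phi F n := lt_of_lt_of_le one_pos (h.one_le_phi hn)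
    rw [Real.rpow_def_of_pos hn0, ← Real.exp_log hphin]
    congr 1
    have := h.phi_log h1 hn
    field_simp
    rw [this]
    ring

lemma eq_rpow_add (h : BF F) (h1 : 1 < phi F 2) {u v : ℝ} (hu : 0 ≤ u) (hv : 0 ≤ v) :
    F (u ^ (Real.log (phi F 2) / Real.log 2)) (v ^ (Real.log (phi F 2) / Real.log 2))
      = (u + v) ^ (Real.log (phi F 2) / Real.log 2) := by
  set α := Real.log (phi F 2) / Real.log 2 with hα
  have hα0 : 0 < α := div_pos (Real.log_pos h1) (Real.log_pos one_lt_two)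
  have hnat : ∀ m n : ℕ, F ((m : ℝ) ^ α) ((n : ℝ) ^ α) = ((m : ℝ) + n) ^ α := by
    intro m n
    rw [hα, ← h.phi_rpow h1, ← h.phi_rpow h1, ← h.phi_add, h.phi_rpow h1]
    push_cast
    rfl
  have hscale : ∀ k : ℕ, 0 < k → (k : ℝ) ^ α * F (u ^ α) (v ^ α)
      = F (((k : ℝ) * u) ^ α) (((k : ℝ) * v) ^ α) := by
    intro k hk
    rw [Real.mul_rpow (by positivity) hu, Real.mul_rpow (by positivity) hv,
      h.hom _ _ _ (by positivity) (by positivity) (by positivity)]
  have hup : ∀ k : ℕ, 0 < k → F (u ^ α) (v ^ α) ≤ (u + v + 2 / k) ^ α := by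
    intro k hk
    have hk0 : (0 : ℝ) < k := by exact_mod_cast hk
    have e1 := h.mono (((k : ℝ) * u) ^ α) (((⌊(k : ℝ) * u⌋₊ + 1 : ℕ) : ℝ) ^ α) (((k : ℝ) * v) ^ α)
      (((⌊(k : ℝ) * v⌋₊ + 1 : ℕ) : ℝ) ^ α) (by positivity)
      (Real.rpow_le_rpow (by positivity) (by push_cast; exact (Nat.lt_floor_add_one _).le) hα0.le)
      (by positivity)
      (Real.rpow_le_rpow (by positivity) (by push_cast; exact (Nat.lt_floor_add_one _).le) hα0.le)
    rw [← hscale k hk, hnat] at e1
    have f1 := Nat.floor_le (show 0 ≤ (k : ℝ) * u by positivity)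
    have f2 := Nat.floor_le (show 0 ≤ (k : ℝ) * v by positivity)
    have e2 : ((((⌊(k : ℝ) * u⌋₊ + 1 : ℕ) : ℝ)) + ((⌊(k : ℝ) * v⌋₊ + 1 : ℕ) : ℝ)) ^ α
        ≤ ((k : ℝ) * (u + v + 2 / k)) ^ α := by
      refine Real.rpow_le_rpow (by positivity) ?_ hα0.le
      have : (k : ℝ) * (u + v + 2 / k) = k * u + k * v + 2 := by field_simp
      rw [this]
      push_cast
      linarith
    rw [Real.mul_rpow (by positivity) (by positivity)] at e2
    exact le_of_mul_le_mul_left (e1.trans e2) (by positivity)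
  have hlo : ∀ k : ℕ, 0 < k → (max (u + v - 2 / k) 0) ^ α ≤ F (u ^ α) (v ^ α) := by
    intro k hk
    have hk0 : (0 : ℝ) < k := by exact_mod_cast hk
    have e1 := h.mono (((⌊(k : ℝ) * u⌋₊ : ℕ) : ℝ) ^ α) (((k : ℝ) * u) ^ α)
      (((⌊(k : ℝ) * v⌋₊ : ℕ) : ℝ) ^ α) (((k : ℝ) * v) ^ α) (by positivity)
      (Real.rpow_le_rpow (by positivity) (Nat.floor_le (by positivity)) hα0.le)
      (by positivity)
      (Real.rpow_le_rpow (by positivity) (Nat.floor_le (by positivity)) hα0.le)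
    rw [← hscale k hk, hnat] at e1
    have e2 : ((k : ℝ) * max (u + v - 2 / k) 0) ^ α
        ≤ ((((⌊(k : ℝ) * u⌋₊ : ℕ) : ℝ)) + ((⌊(k : ℝ) * v⌋₊ : ℕ) : ℝ)) ^ α := by
      refine Real.rpow_le_rpow (by positivity) ?_ hα0.le
      rw [mul_max_of_nonneg _ _ hk0.le]
      have : (k : ℝ) * (u + v - 2 / k) = k * u + k * v - 2 := by field_simp
      rw [this]
      refine max_le ?_ (by simp; positivity)
      have f1 := Nat.lt_floor_add_one ((k : ℝ) * u)
      have f2 := Nat.lt_floor_add_one ((k : ℝ) * v)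
      linarith
    rw [Real.mul_rpow (by positivity) (le_max_right _ _)] at e2
    exact le_of_mul_le_mul_left (e2.trans e1) (by positivity)
  have hlim : Filter.Tendsto (fun k : ℕ => (2 : ℝ) / k) Filter.atTop (nhds 0) :=
    tendsto_const_div_atTop_nhds_zero_nat 2
  apply le_antisymm
  · have hl : Filter.Tendsto (fun k : ℕ => (u + v + 2 / (k : ℝ)) ^ α) Filter.atTop
        (nhds ((u + v + 0) ^ α)) :=
      ((Real.continuous_rpow_const hα0.le).tendsto _).comp (hlim.const_add (u + v))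
    rw [add_zero] at hl
    refine ge_of_tendsto hl ?_
    filter_upwards [Filter.eventually_gt_atTop 0] with k hk
    exact hup k hk
  · have hl : Filter.Tendsto (fun k : ℕ => (max (u + v - 2 / (k : ℝ)) 0) ^ α) Filter.atTop
        (nhds ((max (u + v - 0) 0) ^ α)) :=
      ((Real.continuous_rpow_const hα0.le).tendsto _).comp
        ((hlim.const_sub (u + v)).max tendsto_const_nhds)
    rw [sub_zero, max_eq_left (by positivity)] at hl
    refine le_of_tendsto hl ?_
    filter_upwards [Filter.eventually_gt_atTop 0] with k hk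
    exact hlo k hk

/-- Bohnenblust's functional equation -/
theorem classify (h : BF F) : (∀ x y, 0 ≤ x → 0 ≤ y → F x y = max x y) ∨
    ∃ p : ℝ, 1 ≤ p ∧ ∀ x y, 0 ≤ x → 0 ≤ y → F x y = (x ^ p + y ^ p) ^ (1 / p) := by
  have h11 : 1 ≤ F 1 1 := h.le_left zero_le_one zero_le_one
  rcases h11.lt_or_eq with h1 | h1
  · right
    rw [← h.phi_two] at h1
    set α := Real.log (phi F 2) / Real.log 2 with hα
    have hα0 : 0 < α := div_pos (Real.log_pos h1) (Real.log_pos one_lt_two)
    have hα1 : α ≤ 1 := by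
      rw [hα, div_le_one (Real.log_pos one_lt_two)]
      refine Real.log_le_log (by linarith) ?_
      rw [h.phi_two]
      exact h.le_two
    refine ⟨1 / α, by rw [le_div_iff₀ hα0]; linarith, fun x y hx hy => ?_⟩
    have e1 : ∀ z : ℝ, 0 ≤ z → (z ^ (1 / α)) ^ α = z := by
      intro z hz
      rw [← Real.rpow_mul hz, one_div_mul_cancel hα0.ne', Real.rpow_one]
    have := h.eq_rpow_add h1 (u := x ^ (1 / α)) (v := y ^ (1 / α)) (by positivity) (by positivity)
    rw [← hα, e1 x hx, e1 y hy] at this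
    rw [this, one_div_one_div]
  · left
    exact fun x y hx hy => h.eq_max h1.symm hx hy

end BF

end Pool.Agent.H44.BH
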