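import Pool.Agent.H83.Blk.Defs
import Pool.Agent.H44.BH.Func
import Pool.Agent.H44.BH.Basis

set_option autoImplicit false
open scoped ENNReal ZeroAtInfty

namespace Pool.Agent.H44.BH

variable {X : Type} [NormedAddCommGroup X] [NormedSpace ℝ X]

/-- translation of the two definitions of a normalized 1-unconditional basis -/
lemma UB.of83 {e : ℕ → X} (h : Pool.Agent.H83.Blk.UB e) : UB e := by
  refine ⟨h.nrm, ?_, ?_⟩
  · rw [← Submodule.dense_iff_topologicalClosure_eq_top, ← Finsupp.range_linearCombination]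
    exact h.dense
  · intro s a ε hε
    have hε' : ∀ n, ε n = 1 ∨ ε n = -1 := fun n => by
      have := hε n
      rcases abs_cases (ε n) with h1 | h1
      · left; linarith [h1.1]
      · right; linarith [h1.1]
    have h1 := h.unc ε hε' (∑ n ∈ s, Finsupp.single n (a n))
    simp only [map_sum, Finsupp.linearCombination_single] at h1
    rw [← h1]
    congr 1
    refine Finset.sum_congr rfl fun n _ => ?_
    rw [smul_smul, mul_comm]

section
variable {e : ℕ → X}

/-- the hypothesis on block sums -/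
def HK (e : ℕ → X) : Prop := ∀ (m : ℕ) (a b : ℕ →₀ ℝ), (∀ i, a i ≠ 0 → i < m) →
    (∀ i, b i ≠ 0 → m ≤ i) →
    ‖Finsupp.linearCombination ℝ e a + Finsupp.linearCombination ℝ e b‖
      = ‖‖Finsupp.linearCombination ℝ e a‖ • e 0 + ‖Finsupp.linearCombination ℝ e b‖ • e 1‖

/-- the two dimensional norm -/
noncomputable def FF (e : ℕ → X) (x y : ℝ) : ℝ := ‖x • e 0 + y • e 1‖

lemma FF_mono (hb : UB e) {x x' y y' : ℝ} (hx : 0 ≤ x) (hxx : x ≤ x') (hy : 0 ≤ y) (hyy : y ≤ y') :
    FF e x y ≤ FF e x' y' := by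
  have h1 := hb.contract {0, 1} (fun n => if n = 0 then x' else y')
    (fun n => if n = 0 then x / x' else y / y') (by
      intro n
      split_ifs
      · rw [abs_of_nonneg (div_nonneg hx (hx.trans hxx))]
        exact div_le_one_of_le₀ hxx (hx.trans hxx)
      · rw [abs_of_nonneg (div_nonneg hy (hy.trans hyy))]
        exact div_le_one_of_le₀ hyy (hy.trans hyy))
  rw [Finset.sum_pair zero_ne_one, Finset.sum_pair zero_ne_one] at h1
  simp only [if_true, one_ne_zero, if_false] at h1
  have e1 : x / x' * x' = x := by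
    rcases eq_or_ne x' 0 with h0 | h0
    · have : x = 0 := by linarith
      rw [this, zero_div, zero_mul]
    · exact div_mul_cancel₀ _ h0
  have e2 : y / y' * y' = y := by
    rcases eq_or_ne y' 0 with h0 | h0
    · have : y = 0 := by linarith
      rw [this, zero_div, zero_mul]
    · exact div_mul_cancel₀ _ h0
  rw [e1, e2] at h1
  exact h1

lemma single_norm (hb : UB e) (n : ℕ) (x : ℝ) :
    ‖Finsupp.linearCombination ℝ e (Finsupp.single n x)‖ = |x| := by
  rw [Finsupp.linearCombination_single, norm_smul, hb.norm, mul_one, Real.norm_eq_abs]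

lemma bf (hb : UB e) (hK : HK e) : BF (FF e) := by
  have hpair : ∀ (i j : ℕ) (x y : ℝ), i < j → 0 ≤ x → 0 ≤ y →
      ‖Finsupp.linearCombination ℝ e (Finsupp.single i x) +
        Finsupp.linearCombination ℝ e (Finsupp.single j y)‖ = FF e x y := by
    intro i j x y hij hx hy
    rw [hK j (Finsupp.single i x) (Finsupp.single j y) ?_ ?_, single_norm hb, single_norm hb,
      abs_of_nonneg hx, abs_of_nonneg hy, FF]
    · intro k hk
      rw [Finsupp.single_apply] at hk
      split_ifs at hk with h
      · omega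
      · exact absurd rfl hk
    · intro k hk
      rw [Finsupp.single_apply] at hk
      split_ifs at hk with h
      · omega
      · exact absurd rfl hk
  refine ⟨?_, ?_, ?_, ?_, ?_, ?_⟩
  · intro t x y ht _ _
    rw [FF, FF, mul_smul, mul_smul, ← smul_add, norm_smul, Real.norm_eq_abs, abs_of_nonneg ht]
  · intro x hx
    rw [FF, zero_smul, add_zero, norm_smul, hb.norm, mul_one, Real.norm_eq_abs, abs_of_nonneg hx]
  · intro y hy
    rw [FF, zero_smul, zero_add, norm_smul, hb.norm, mul_one, Real.norm_eq_abs, abs_of_nonneg hy]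
  · intro x x' y y' hx hxx hy hyy
    exact FF_mono hb hx hxx hy hyy
  · intro x y z hx hy hz
    have h1 : ‖(Finsupp.linearCombination ℝ e (Finsupp.single 0 x) +
        Finsupp.linearCombination ℝ e (Finsupp.single 1 y)) +
        Finsupp.linearCombination ℝ e (Finsupp.single 2 z)‖ = FF e (FF e x y) z := by
      rw [← map_add, hK 2 (Finsupp.single 0 x + Finsupp.single 1 y) (Finsupp.single 2 z) ?_ ?_,
        map_add, hpair 0 1 x y (by norm_num) hx hy, single_norm hb, abs_of_nonneg hz]
      · rfl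
      · intro k hk
        by_contra hc
        apply hk
        rw [Finsupp.add_apply, Finsupp.single_apply, Finsupp.single_apply, if_neg (by omega),
          if_neg (by omega), add_zero]
      · intro k hk
        by_contra hc
        apply hk
        rw [Finsupp.single_apply, if_neg (by omega)]
    have h2 : ‖Finsupp.linearCombination ℝ e (Finsupp.single 0 x) +
        (Finsupp.linearCombination ℝ e (Finsupp.single 1 y) +
        Finsupp.linearCombination ℝ e (Finsupp.single 2 z))‖ = FF e x (FF e y z) := by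
      rw [← map_add _ (Finsupp.single 1 y), hK 1 (Finsupp.single 0 x)
        (Finsupp.single 1 y + Finsupp.single 2 z) ?_ ?_,
        map_add, hpair 1 2 y z (by norm_num) hy hz, single_norm hb, abs_of_nonneg hx]
      · rfl
      · intro k hk
        by_contra hc
        apply hk
        rw [Finsupp.single_apply, if_neg (by omega)]
      · intro k hk
        by_contra hc
        apply hk
        rw [Finsupp.add_apply, Finsupp.single_apply, Finsupp.single_apply, if_neg (by omega),
          if_neg (by omega), add_zero]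
    rw [← h1, ← h2, add_assoc]
  · rw [FF]
    refine (norm_add_le _ _).trans ?_
    rw [norm_smul, norm_smul, hb.norm, hb.norm]
    norm_num

/-- partial sums -/
lemma norm_succ (hb : UB e) (hK : HK e) (a : ℕ → ℝ) (n : ℕ) :
    ‖∑ k ∈ Finset.range (n + 1), a k • e k‖ = FF e ‖∑ k ∈ Finset.range n, a k • e k‖ |a n| := by
  have h1 := hK n (∑ k ∈ Finset.range n, Finsupp.single k (a k)) (Finsupp.single n (a n)) ?_ ?_
  · rw [single_norm hb] at h1
    simp only [map_sum, Finsupp.linearCombination_single] at h1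
    rw [Finset.sum_range_succ, h1, FF]
  · intro i hi
    by_contra hc
    apply hi
    rw [Finsupp.finset_sum_apply]
    refine Finset.sum_eq_zero fun k hk => ?_
    rw [Finset.mem_range] at hk
    rw [Finsupp.single_apply, if_neg (by omega)]
  · intro i hi
    by_contra hc
    apply hi
    rw [Finsupp.single_apply, if_neg (by omega)]

lemma norm_eq_range (a : ℕ →₀ ℝ) {n : ℕ} (hn : ∀ i, a i ≠ 0 → i < n) :
    Finsupp.linearCombination ℝ e a = ∑ k ∈ Finset.range n, a k • e k := by
  rw [Finsupp.linearCombination_apply, Finsupp.sum]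
  refine Finset.sum_subset ?_ ?_
  · intro i hi
    rw [Finsupp.mem_support_iff] at hi
    exact Finset.mem_range.2 (hn i hi)
  · intro i _ hi
    rw [Finsupp.notMem_support_iff.1 hi, zero_smul]

lemma exists_bound (a : ℕ →₀ ℝ) : ∃ n, ∀ i, a i ≠ 0 → i < n := by
  refine ⟨a.support.sup id + 1, fun i hi => ?_⟩
  have : i ≤ a.support.sup id := Finset.le_sup (f := id) (Finsupp.mem_support_iff.2 hi)
  omega

/-- the `c0` alternative: unit vectors map -/
noncomputable def toC0 : (ℕ →₀ ℝ) →ₗ[ℝ] (ℕ →C₀ ℝ) where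
  toFun a := ⟨⟨a, continuous_of_discreteTopology⟩, by
    rw [Filter.cocompact_eq_cofinite]
    refine (tendsto_const_nhds (x := (0 : ℝ))).congr' ?_
    have hf : {i | a i ≠ 0}.Finite := by
      refine a.support.finite_toSet.subset fun i hi => ?_
      exact Finsupp.mem_support_iff.2 hi
    filter_upwards [hf.compl_mem_cofinite] with i hi
    simpa using Eq.symm (not_not.1 hi)⟩
  map_add' a b := by ext i; rfl
  map_smul' c a := by ext i; rfl

lemma toC0_apply (a : ℕ →₀ ℝ) (i : ℕ) : toC0 a i = a i := rfl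

lemma c0_norm_le {f : ℕ →C₀ ℝ} {M : ℝ} (hM : 0 ≤ M) (h : ∀ i, |f i| ≤ M) : ‖f‖ ≤ M := by
  rw [← ZeroAtInftyContinuousMap.norm_toBCF_eq_norm]
  exact (BoundedContinuousFunction.norm_le hM).2 h

lemma le_c0_norm (f : ℕ →C₀ ℝ) (i : ℕ) : |f i| ≤ ‖f‖ := by
  rw [← ZeroAtInftyContinuousMap.norm_toBCF_eq_norm]
  exact f.toBCF.norm_coe_le_norm i

lemma toC0_dense : DenseRange toC0 := by
  intro f
  rw [Metric.mem_closure_iff]
  intro ε hε
  have h1 : Filter.Tendsto f Filter.cofinite (nhds 0) := by
    rw [← Filter.cocompact_eq_cofinite]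
    exact f.zero_at_infty'
  have h2 : ∀ᶠ i in Filter.cofinite, |f i| < ε / 2 := by
    have := (Metric.tendsto_nhds.1 h1) (ε / 2) (by positivity)
    filter_upwards [this] with i hi
    rwa [Real.dist_0_eq_abs] at hi
  rw [Filter.eventually_cofinite] at h2
  refine ⟨toC0 (∑ k ∈ h2.toFinset, Finsupp.single k (f k)), ⟨_, rfl⟩, ?_⟩
  rw [dist_eq_norm]
  refine lt_of_le_of_lt (c0_norm_le (M := ε / 2) (by positivity) fun i => ?_) (by linarith)
  rw [ZeroAtInftyContinuousMap.sub_apply, toC0_apply, Finsupp.finset_sum_apply]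
  simp only [Finsupp.single_apply]
  rw [Finset.sum_ite_eq']
  by_cases hi : i ∈ h2.toFinset
  · rw [if_pos hi, sub_self, abs_zero]
    positivity
  · rw [if_neg hi, sub_zero]
    rw [Set.Finite.mem_toFinset] at hi
    exact (not_le.1 (by simpa using hi)).le

end

theorem bohn [CompleteSpace X] {e : ℕ → X} (h : Pool.Agent.H83.Blk.UB e)
    (hK : ∀ (m : ℕ) (a b : ℕ →₀ ℝ), (∀ i, a i ≠ 0 → i < m) → (∀ i, b i ≠ 0 → m ≤ i) →
      ‖Finsupp.linearCombination ℝ e a + Finsupp.linearCombination ℝ e b‖
      = ‖‖Finsupp.linearCombination ℝ e a‖ • e 0 + ‖Finsupp.linearCombination ℝ e b‖ • e 1‖) :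
    Nonempty (X ≃ₗᵢ[ℝ] (ℕ →C₀ ℝ)) ∨
      ∃ q : ℝ≥0∞, ∃ _ : Fact (1 ≤ q), q ≠ ∞ ∧
        Nonempty (X ≃ₗᵢ[ℝ] ↥(lp (fun _ : ℕ => ℝ) q)) := by
  have hb := UB.of83 h
  have hbf := bf hb hK
  rcases hbf.classify with hm | ⟨p, hp, hF⟩
  · left
    have hup : ∀ (a : ℕ → ℝ) (M : ℝ), 0 ≤ M → (∀ i, |a i| ≤ M) → ∀ n,
        ‖∑ k ∈ Finset.range n, a k • e k‖ ≤ M := by
      intro a M hM ha n
      induction n with
      | zero => simpa using hM
      | succ n ih =>
        rw [norm_succ hb hK, hm _ _ (norm_nonneg _) (abs_nonneg _)]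
        exact max_le ih (ha n)
    refine ⟨(LinearEquiv.refl ℝ (ℕ →₀ ℝ)).extendOfIsometry (Finsupp.linearCombination ℝ e) toC0
      h.dense toC0_dense ?_⟩
    intro a
    simp only [LinearEquiv.refl_apply]
    obtain ⟨n, hn⟩ := exists_bound a
    rw [norm_eq_range a hn]
    apply le_antisymm
    · refine c0_norm_le (norm_nonneg _) fun i => ?_
      rw [toC0_apply]
      by_cases hi : i < n
      · exact hb.coeff_le _ (fun k => a k) (Finset.mem_range.2 hi)
      · have : a i = 0 := by
          by_contra h0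
          exact hi (hn i h0)
        rw [this, abs_zero]
        exact norm_nonneg _
    · exact hup (fun k => a k) _ (norm_nonneg _) (fun i => le_c0_norm (toC0 a) i) n
  · right
    have hp0 : 0 < p := by linarith
    have hq : Fact (1 ≤ ENNReal.ofReal p) := ⟨by
      rw [← ENNReal.ofReal_one]; exact ENNReal.ofReal_le_ofReal hp⟩
    have hqr : (ENNReal.ofReal p).toReal = p := ENNReal.toReal_ofReal hp0.le
    refine ⟨ENNReal.ofReal p, hq, ENNReal.ofReal_ne_top, ?_⟩
    have hform : ∀ (a : ℕ → ℝ) (n : ℕ), ‖∑ k ∈ Finset.range n, a k • e k‖ ^ p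
        = ∑ k ∈ Finset.range n, |a k| ^ p := by
      intro a n
      induction n with
      | zero => simp [Real.zero_rpow hp0.ne']
      | succ n ih =>
        rw [norm_succ hb hK, hF _ _ (norm_nonneg _) (abs_nonneg _), Finset.sum_range_succ, ← ih,
          ← Real.rpow_mul (by positivity), one_div_mul_cancel hp0.ne', Real.rpow_one]
    set S : (ℕ →₀ ℝ) →ₗ[ℝ] (lp (fun _ : ℕ => ℝ) (ENNReal.ofReal p)) :=
      Finsupp.linearCombination ℝ (fun n => lp.single (E := fun _ : ℕ => ℝ) (ENNReal.ofReal p) n (1 : ℝ))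
      with hS
    have hval : ∀ (a : ℕ →₀ ℝ) {n : ℕ}, (∀ i, a i ≠ 0 → i < n) →
        S a = ∑ k ∈ Finset.range n, lp.single (E := fun _ : ℕ => ℝ) (ENNReal.ofReal p) k (a k) := by
      intro a n hn
      rw [hS, norm_eq_range a hn]
      refine Finset.sum_congr rfl fun k _ => ?_
      rw [← lp.single_smul, smul_eq_mul, mul_one]
    have hSd : DenseRange S := by
      intro f
      have h1 := lp.hasSum_single (ENNReal.ofReal_ne_top (r := p)) f
      refine mem_closure_of_tendsto h1 (Filter.Eventually.of_forall fun s => ?_)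
      refine ⟨∑ k ∈ s, Finsupp.single k (f k), ?_⟩
      rw [hS, map_sum]
      refine Finset.sum_congr rfl fun k _ => ?_
      rw [Finsupp.linearCombination_single, ← lp.single_smul, smul_eq_mul, mul_one]
    refine ⟨(LinearEquiv.refl ℝ (ℕ →₀ ℝ)).extendOfIsometry (Finsupp.linearCombination ℝ e) S
      h.dense hSd ?_⟩
    intro a
    simp only [LinearEquiv.refl_apply]
    obtain ⟨n, hn⟩ := exists_bound a
    have h1 : ‖S a‖ ^ p = ‖Finsupp.linearCombination ℝ e a‖ ^ p := by
      rw [hval a hn, norm_eq_range (e := e) a hn, hform]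
      have := lp.norm_sum_single (E := fun _ : ℕ => ℝ) (p := ENNReal.ofReal p)
        (by rw [hqr]; exact hp0) (fun k => a k) (Finset.range n)
      rw [hqr] at this
      simpa [Real.norm_eq_abs] using this
    exact (Real.rpow_left_inj (norm_nonneg _) (norm_nonneg _) hp0.ne').1 h1

end Pool.Agent.H44.BH
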