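import Mathlib

set_option autoImplicit false

namespace Pool.Agent.H44.BH

variable {X : Type*} [NormedAddCommGroup X] [NormedSpace ℝ X]

/-- `e` is a reflection vector with functional `f`. -/
structure Refl (e : X) (f : X →L[ℝ] ℝ) : Prop where
  one : f e = 1
  iso : ∀ x, ‖x - (2 * f x) • e‖ = ‖x‖

lemma eq_zero_of_iterate {x w : X} {C : ℝ} (h : ∀ n : ℕ, ‖x + (n : ℝ) • w‖ ≤ C) : w = 0 := by
  by_contra hw
  have hw' : 0 < ‖w‖ := norm_pos_iff.2 hw
  obtain ⟨n, hn⟩ := exists_nat_gt ((C + ‖x‖) / ‖w‖)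
  have h1 := h n
  have h2 : ‖(n : ℝ) • w‖ ≤ ‖x + (n : ℝ) • w‖ + ‖x‖ := by
    have : (n : ℝ) • w = (x + (n : ℝ) • w) - x := by abel
    calc ‖(n : ℝ) • w‖ = ‖(x + (n : ℝ) • w) - x‖ := by rw [← this]
      _ ≤ _ := norm_sub_le _ _
  rw [norm_smul, Real.norm_natCast] at h2
  rw [div_lt_iff₀ hw'] at hn
  linarith

namespace Refl

variable {e g : X} {f h : X →L[ℝ] ℝ}

lemma ne_zero (he : Refl e f) : e ≠ 0 := by
  rintro rfl
  have := he.one
  simp at this

lemma norm_pos (he : Refl e f) : 0 < ‖e‖ := norm_pos_iff.2 he.ne_zero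

lemma bound (he : Refl e f) (x : X) : |f x| * ‖e‖ ≤ ‖x‖ := by
  have h1 : (2 * f x) • e = x - (x - (2 * f x) • e) := by abel
  have h2 : ‖(2 * f x) • e‖ ≤ ‖x‖ + ‖x‖ := by
    rw [h1]
    refine (norm_sub_le _ _).trans ?_
    rw [he.iso]
  rw [norm_smul, Real.norm_eq_abs, abs_mul, abs_two] at h2
  linarith

lemma abs_t_le (he : Refl e f) (hg : Refl g h) : |f g * h e| ≤ 1 := by
  have h1 := he.bound g
  have h2 := hg.bound e
  have p1 := he.norm_pos
  have p2 := hg.norm_pos
  rw [abs_mul]
  have h3 : (|f g| * ‖e‖) * (|h e| * ‖g‖) ≤ ‖g‖ * ‖e‖ :=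
    mul_le_mul h1 h2 (by positivity) (by positivity)
  have h4 : (|f g| * |h e|) * (‖g‖ * ‖e‖) ≤ 1 * (‖g‖ * ‖e‖) := by
    calc _ = (|f g| * ‖e‖) * (|h e| * ‖g‖) := by ring
      _ ≤ _ := by rw [one_mul]; exact h3
  exact le_of_mul_le_mul_right h4 (by positivity)

/-- transport of a reflection by an isometry -/
lemma map (he : Refl e f) (W : X ≃ₗᵢ[ℝ] X) :
    Refl (W e) (f.comp (W.symm.toContinuousLinearEquiv : X →L[ℝ] X)) := by
  refine ⟨by simp [he.one], fun x => ?_⟩
  have h1 := he.iso (W.symm x)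
  have h2 : x - (2 * f (W.symm x)) • W e = W (W.symm x - (2 * f (W.symm x)) • e) := by
    simp
  simp only [ContinuousLinearMap.coe_comp, ContinuousLinearEquiv.coe_coe,
    LinearIsometryEquiv.coe_toContinuousLinearEquiv, Function.comp_apply]
  rw [h2, W.norm_map, h1, W.symm.norm_map]

/-- the reflection as an isometric equivalence -/
noncomputable def equiv (hg : Refl g h) : X ≃ₗᵢ[ℝ] X where
  toLinearEquiv := LinearEquiv.ofInvolutive
    (LinearMap.id - (2 : ℝ) • (h : X →ₗ[ℝ] ℝ).smulRight g) (by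
      intro x
      simp only [LinearMap.sub_apply, LinearMap.id_coe, id_eq, LinearMap.smul_apply,
        LinearMap.coe_smulRight, ContinuousLinearMap.coe_coe, map_sub, map_smul, smul_eq_mul,
        hg.one, smul_sub, smul_smul]
      module)
  norm_map' := by
    intro x
    have := hg.iso x
    simp only [LinearEquiv.coe_ofInvolutive, LinearMap.sub_apply, LinearMap.id_coe, id_eq,
      LinearMap.smul_apply, LinearMap.coe_smulRight, ContinuousLinearMap.coe_coe, smul_smul]
    exact this

lemma equiv_apply (hg : Refl g h) (x : X) : hg.equiv x = x - (2 * h x) • g := by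
  show (LinearMap.id - (2 : ℝ) • (h : X →ₗ[ℝ] ℝ).smulRight g : X →ₗ[ℝ] X) x = _
  simp only [LinearMap.sub_apply, LinearMap.id_coe, id_eq, LinearMap.smul_apply,
    LinearMap.coe_smulRight, ContinuousLinearMap.coe_coe, smul_smul]

lemma equiv_symm_apply (hg : Refl g h) (x : X) : hg.equiv.symm x = x - (2 * h x) • g := by
  rw [LinearIsometryEquiv.symm_apply_eq, hg.equiv_apply]
  simp only [map_sub, map_smul, smul_eq_mul, hg.one]
  module

lemma t_nonneg (he : Refl e f) (hg : Refl g h) : 0 ≤ f g * h e := by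
  have h1 := abs_t_le he (he.map hg.equiv)
  simp only [ContinuousLinearMap.coe_comp, ContinuousLinearEquiv.coe_coe,
    LinearIsometryEquiv.coe_toContinuousLinearEquiv, Function.comp_apply, equiv_apply,
    equiv_symm_apply, map_sub, map_smul, smul_eq_mul, he.one] at h1
  rw [abs_mul] at h1
  have h2 : |1 - 2 * h e * f g| ≤ 1 := by
    by_contra hc
    push Not at hc
    have : 1 < |1 - 2 * h e * f g| * |1 - 2 * h e * f g| := by nlinarith
    linarith
  rw [abs_le] at h2
  nlinarith [h2.1, h2.2]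

lemma t_le_one (he : Refl e f) (hg : Refl g h) : f g * h e ≤ 1 :=
  (le_abs_self _).trans (abs_t_le he hg)

/-- `t = 0` forces both entries to vanish (first half) -/
lemma right_eq_zero (he : Refl e f) (hg : Refl g h) (h0 : f g = 0) : h e = 0 := by
  have key : ∀ c : ℝ, ‖e + c • g‖ = ‖e + (c + 2 * h e) • g‖ := by
    intro c
    have h1 := hg.iso (e + c • g)
    have h2 := he.iso (e + (c + 2 * h e) • g)
    simp only [map_add, map_smul, smul_eq_mul, he.one, hg.one, h0] at h1 h2
    have e1 : e + c • g - (2 * (h e + c * 1)) • g = e - (c + 2 * h e) • g := by module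
    have e2 : e + (c + 2 * h e) • g - (2 * (1 + (c + 2 * h e) * 0)) • e
        = -(e - (c + 2 * h e) • g) := by module
    rw [e1] at h1
    rw [e2, norm_neg] at h2
    rw [← h1, ← h2]
  have h3 : ∀ n : ℕ, ‖e + (n : ℝ) • ((2 * h e) • g)‖ = ‖e‖ := by
    intro n
    induction n with
    | zero => simp
    | succ n ih =>
      rw [← ih]
      have := key (n * (2 * h e))
      rw [smul_smul, smul_smul, this]
      congr 3
      push_cast
      ring
  have h4 := eq_zero_of_iterate (fun n => (h3 n).le)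
  rcases smul_eq_zero.1 h4 with h5 | h5
  · linarith
  · exact absurd h5 hg.ne_zero

lemma zero_iff (he : Refl e f) (hg : Refl g h) : f g = 0 ↔ h e = 0 :=
  ⟨fun h0 => right_eq_zero he hg h0, fun h0 => right_eq_zero hg he h0⟩

lemma eq_smul_of_t (he : Refl e f) (hg : Refl g h) (ht : f g * h e = 1) : g = f g • e := by
  set α := f g with hα
  have hα0 : α ≠ 0 := by
    intro h0
    rw [h0] at ht
    simp at ht
  have hhe : h e = α⁻¹ := by field_simp; linarith
  have hαα : α * α⁻¹ = 1 := mul_inv_cancel₀ hα0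
  have key : ∀ c : ℝ, ‖e + c • (g - α • e)‖ = ‖e + (c + 2 * α⁻¹) • (g - α • e)‖ := by
    intro c
    have h1 := he.iso (e + c • (g - α • e))
    have h2 := hg.iso (e + c • (g - α • e) - (2 * f (e + c • (g - α • e))) • e)
    simp only [map_add, map_sub, map_smul, smul_eq_mul, he.one, hg.one, hhe, ← hα] at h1 h2
    have a2 : 2 * (1 + c * (α - α * 1)) = 2 := by ring
    rw [a2] at h1 h2
    have a3 : 2 * (α⁻¹ + c * (1 - α * α⁻¹) - 2 * α⁻¹) = -(2 * α⁻¹) := by rw [hαα]; ring
    rw [a3] at h2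
    have e2 : e + c • (g - α • e) - (2 : ℝ) • e - (-(2 * α⁻¹)) • g
        = e + (c + 2 * α⁻¹) • (g - α • e) := by
      have : (c + 2 * α⁻¹) • (g - α • e) = c • (g - α • e) + (2 * α⁻¹) • g
          - (2 * (α * α⁻¹)) • e := by module
      rw [this, hαα]
      module
    rw [e2, h1] at h2
    exact h2.symm
  have h3 : ∀ n : ℕ, ‖e + (n : ℝ) • ((2 * α⁻¹) • (g - α • e))‖ = ‖e‖ := by
    intro n
    induction n with
    | zero => simp
    | succ n ih =>
      rw [← ih]
      have := key (n * (2 * α⁻¹))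
      rw [smul_smul, smul_smul, this]
      congr 3
      push_cast
      ring
  have h4 := eq_zero_of_iterate (fun n => (h3 n).le)
  rcases smul_eq_zero.1 h4 with h5 | h5
  · exact absurd h5 (by positivity)
  · exact sub_eq_zero.1 h5

/-- the functional of a reflection vector is unique -/
lemma unique (he : Refl e f) (he' : Refl e h) : f = h := by
  ext x
  have k1 : ∀ c : ℝ, ‖x + c • e‖ = ‖x + (-c - 2 * f x) • e‖ := by
    intro c
    have h1 := he.iso (x + c • e)
    simp only [map_add, map_smul, smul_eq_mul, he.one] at h1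
    rw [← h1]
    congr 1
    module
  have k2 : ∀ c : ℝ, ‖x + c • e‖ = ‖x + (-c - 2 * h x) • e‖ := by
    intro c
    have h1 := he'.iso (x + c • e)
    simp only [map_add, map_smul, smul_eq_mul, he'.one] at h1
    rw [← h1]
    congr 1
    module
  have key : ∀ c : ℝ, ‖x + c • e‖ = ‖x + (c + 2 * (f x - h x)) • e‖ := by
    intro c
    rw [k1 c, k2]
    congr 3
    ring
  have h3 : ∀ n : ℕ, ‖x + (n : ℝ) • ((2 * (f x - h x)) • e)‖ = ‖x‖ := by
    intro n
    induction n with
    | zero => simp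
    | succ n ih =>
      rw [← ih]
      have := key (n * (2 * (f x - h x)))
      rw [smul_smul, smul_smul, this]
      congr 3
      push_cast
      ring
  have h4 := eq_zero_of_iterate (fun n => (h3 n).le)
  rcases smul_eq_zero.1 h4 with h5 | h5
  · linarith
  · exact absurd h5 he.ne_zero

/-- rescaling a reflection -/
lemma smul (he : Refl e f) {k : ℝ} (hk : k ≠ 0) : Refl (k • e) (k⁻¹ • f) := by
  refine ⟨by simp [he.one, hk], fun x => ?_⟩
  rw [← he.iso x]
  congr 2
  simp only [ContinuousLinearMap.smul_apply, smul_eq_mul, smul_smul]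
  congr 1
  field_simp

end Refl

end Pool.Agent.H44.BH
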