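import Pool.Agent.H44.BH.Refl

set_option autoImplicit false

namespace Pool.Agent.H44.BH

variable {X : Type*} [NormedAddCommGroup X] [NormedSpace ℝ X]

/-- rotation by `ψ` in the plane of `e`, `e'` with dual functionals `f`, `f'` -/
noncomputable def rot (e e' : X) (f f' : X →L[ℝ] ℝ) (ψ : ℝ) : X →ₗ[ℝ] X where
  toFun x := x + ((Real.cos ψ - 1) * f x - Real.sin ψ * f' x) • e
    + (Real.sin ψ * f x + (Real.cos ψ - 1) * f' x) • e'
  map_add' x y := by simp only [map_add]; module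
  map_smul' c x := by simp only [map_smul, smul_eq_mul, RingHom.id_apply]; module

section
variable {e e' : X} {f f' : X →L[ℝ] ℝ}

lemma rot_apply (ψ : ℝ) (x : X) : rot e e' f f' ψ x = x +
    ((Real.cos ψ - 1) * f x - Real.sin ψ * f' x) • e
    + (Real.sin ψ * f x + (Real.cos ψ - 1) * f' x) • e' := rfl

lemma rot_add (h1 : f e = 1) (h2 : f e' = 0) (h3 : f' e = 0) (h4 : f' e' = 1) (ψ χ : ℝ) (x : X) :
    rot e e' f f' ψ (rot e e' f f' χ x) = rot e e' f f' (ψ + χ) x := by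
  simp only [rot_apply, map_add, map_smul, smul_eq_mul, h1, h2, h3, h4, Real.cos_add, Real.sin_add]
  module

lemma rot_zero (x : X) : rot e e' f f' 0 x = x := by
  simp [rot_apply]

lemma rot_two_pi (x : X) : rot e e' f f' (2 * Real.pi) x = x := by
  simp [rot_apply]

lemma continuous_rot (x : X) : Continuous fun ψ => ‖rot e e' f f' ψ x‖ := by
  simp only [rot_apply]
  fun_prop

/-- the closed subgroup of angles for which the rotation is isometric -/
noncomputable def angles (h1 : f e = 1) (h2 : f e' = 0) (h3 : f' e = 0) (h4 : f' e' = 1) :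
    AddSubgroup ℝ where
  carrier := {ψ | ∀ x, ‖rot e e' f f' ψ x‖ = ‖x‖}
  add_mem' := by
    intro a b ha hb x
    rw [← rot_add h1 h2 h3 h4, ha, hb]
  zero_mem' := by intro x; rw [rot_zero]
  neg_mem' := by
    intro a ha x
    have := ha (rot e e' f f' (-a) x)
    rw [rot_add h1 h2 h3 h4, add_neg_cancel, rot_zero] at this
    exact this.symm

lemma isometric_all (h1 : f e = 1) (h2 : f e' = 0) (h3 : f' e = 0) (h4 : f' e' = 1) {a : ℝ}
    (ha : ∀ x, ‖rot e e' f f' a x‖ = ‖x‖) (hirr : Irrational (a / (2 * Real.pi))) (ψ : ℝ) (x : X) :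
    ‖rot e e' f f' ψ x‖ = ‖x‖ := by
  have hd : Dense (AddSubgroup.closure {a, 2 * Real.pi} : Set ℝ) :=
    dense_addSubgroupClosure_pair_iff.2 hirr
  have hsub : AddSubgroup.closure {a, 2 * Real.pi} ≤ angles h1 h2 h3 h4 := by
    rw [AddSubgroup.closure_le]
    intro y hy
    rcases hy with rfl | hy
    · exact ha
    · rw [Set.mem_singleton_iff] at hy
      subst hy
      intro x
      rw [rot_two_pi]
  have hd' : Dense (angles h1 h2 h3 h4 : Set ℝ) := hd.mono hsub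
  have hc : IsClosed {ψ : ℝ | ‖rot e e' f f' ψ x‖ = ‖x‖} :=
    isClosed_eq (continuous_rot x) continuous_const
  have hd2 : Dense {ψ : ℝ | ‖rot e e' f f' ψ x‖ = ‖x‖} := by
    refine hd'.mono (fun ψ (hψ : ∀ x, ‖rot e e' f f' ψ x‖ = ‖x‖) => hψ x)
  have := hd2.closure_eq
  rw [hc.closure_eq] at this
  have hmem : ψ ∈ {ψ : ℝ | ‖rot e e' f f' ψ x‖ = ‖x‖} := by rw [this]; trivial
  exact hmem

/-- the rotation as an isometric equivalence -/
noncomputable def rotE (h1 : f e = 1) (h2 : f e' = 0) (h3 : f' e = 0) (h4 : f' e' = 1)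
    (hall : ∀ ψ x, ‖rot e e' f f' ψ x‖ = ‖x‖) (ψ : ℝ) : X ≃ₗᵢ[ℝ] X where
  toLinearEquiv := LinearEquiv.ofLinearMap (rot e e' f f' ψ) (rot e e' f f' (-ψ))
    (by ext x; simp [rot_add h1 h2 h3 h4, rot_zero])
    (by ext x; simp [rot_add h1 h2 h3 h4, rot_zero])
  norm_map' x := hall ψ x

lemma rotE_apply (h1 : f e = 1) (h2 : f e' = 0) (h3 : f' e = 0) (h4 : f' e' = 1)
    (hall : ∀ ψ x, ‖rot e e' f f' ψ x‖ = ‖x‖) (ψ : ℝ) (x : X) :
    rotE h1 h2 h3 h4 hall ψ x = rot e e' f f' ψ x := rfl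

lemma rotE_symm_apply (h1 : f e = 1) (h2 : f e' = 0) (h3 : f' e = 0) (h4 : f' e' = 1)
    (hall : ∀ ψ x, ‖rot e e' f f' ψ x‖ = ‖x‖) (ψ : ℝ) (x : X) :
    (rotE h1 h2 h3 h4 hall ψ).symm x = rot e e' f f' (-ψ) x := rfl

end

lemma frame {e g : X} {f h : X →L[ℝ] ℝ} (he : f e = 1) (hg : h g = 1) {φ : ℝ}
    (h1 : f g = Real.cos φ) (h2 : h e = Real.cos φ) (hs : Real.sin φ ≠ 0) :
    f ((Real.sin φ)⁻¹ • (g - Real.cos φ • e)) = 0 ∧
    ((Real.sin φ)⁻¹ • (h - Real.cos φ • f)) e = 0 ∧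
    ((Real.sin φ)⁻¹ • (h - Real.cos φ • f)) ((Real.sin φ)⁻¹ • (g - Real.cos φ • e)) = 1 := by
  have hsc : Real.sin φ ^ 2 = 1 - Real.cos φ ^ 2 := Real.sin_sq φ
  refine ⟨by simp [he, h1], by simp [he, h2], ?_⟩
  simp only [map_smul, map_sub, smul_eq_mul, _root_.smul_apply,
    _root_.sub_apply, he, hg, h1, h2]
  field_simp
  rw [hsc]
  ring

/-- two reflections at an irrational angle: all rotations of their plane are isometric -/
lemma rot_isometric {e g : X} {f h : X →L[ℝ] ℝ} (he : Refl e f) (hg : Refl g h) {φ : ℝ}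
    (h1 : f g = Real.cos φ) (h2 : h e = Real.cos φ) (hs : Real.sin φ ≠ 0)
    (hirr : Irrational (φ / Real.pi)) (ψ : ℝ) (x : X) :
    ‖rot e ((Real.sin φ)⁻¹ • (g - Real.cos φ • e)) f ((Real.sin φ)⁻¹ • (h - Real.cos φ • f)) ψ x‖
      = ‖x‖ := by
  set e' : X := (Real.sin φ)⁻¹ • (g - Real.cos φ • e) with he'
  set f' : X →L[ℝ] ℝ := (Real.sin φ)⁻¹ • (h - Real.cos φ • f) with hf'
  have hsc : Real.sin φ ^ 2 = 1 - Real.cos φ ^ 2 := Real.sin_sq φ
  have k1 : f e = 1 := he.one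
  have k2 : f e' = 0 := by
    simp [he', he.one, h1]
  have k3 : f' e = 0 := by
    simp [hf', he.one, h2]
  have k4 : f' e' = 1 := by
    simp only [hf', he', map_smul, map_sub, smul_eq_mul, _root_.smul_apply,
      _root_.sub_apply, he.one, hg.one, h1, h2]
    field_simp
    rw [hsc]
    ring
  have hgg : g = Real.sin φ • e' + Real.cos φ • e := by
    rw [he', smul_smul, mul_inv_cancel₀ hs]
    module
  have hhh : h = Real.sin φ • f' + Real.cos φ • f := by
    rw [hf', smul_smul, mul_inv_cancel₀ hs]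
    module
  refine isometric_all k1 k2 k3 k4 (a := 2 * φ) ?_ ?_ ψ x
  · intro y
    have e1 := hg.iso (y - (2 * f y) • e)
    rw [he.iso y] at e1
    rw [← e1]
    congr 1
    rw [rot_apply]
    have hh : ∀ z, h z = Real.sin φ * f' z + Real.cos φ * f z := by
      intro z
      conv_lhs => rw [hhh]
      simp
    rw [hh, Real.cos_two_mul, Real.sin_two_mul]
    simp only [map_sub, map_smul, smul_eq_mul, k1, k3]
    conv_rhs => rw [hgg]
    have hc2 : Real.cos φ ^ 2 = 1 - Real.sin φ ^ 2 := by rw [hsc]; ring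
    have q1 : (2 * Real.cos φ ^ 2 - 1 - 1) * f y - 2 * Real.sin φ * Real.cos φ * f' y
        = -(2 * f y) - 2 * (Real.sin φ * (f' y - 2 * f y * 0) +
          Real.cos φ * (f y - 2 * f y * 1)) * Real.cos φ := by
      ring
    have q2 : 2 * Real.sin φ * Real.cos φ * f y + (2 * Real.cos φ ^ 2 - 1 - 1) * f' y
        = - 2 * (Real.sin φ * (f' y - 2 * f y * 0) +
          Real.cos φ * (f y - 2 * f y * 1)) * Real.sin φ := by
      rw [hc2]
      ring
    rw [q1, q2]
    module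
  · have : 2 * φ / (2 * Real.pi) = φ / Real.pi := by
      rw [mul_div_mul_left _ _ two_ne_zero]
    rw [this]
    exact hirr

/-- squares of cosines of rational angles -/
def Q2 : Set ℝ := Set.range fun r : ℚ => Real.cos (Real.pi * r) ^ 2

lemma countable_Q2 : Q2.Countable := Set.countable_range _

lemma one_mem_Q2 : (1 : ℝ) ∈ Q2 := ⟨0, by simp⟩

lemma zero_mem_Q2 : (0 : ℝ) ∈ Q2 := ⟨1 / 2, by
  have : Real.pi * ((1 / 2 : ℚ) : ℝ) = Real.pi / 2 := by push_cast; ring
  simp only [this, Real.cos_pi_div_two]; norm_num⟩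

/-- irrational angle -/
lemma exists_angle {t : ℝ} (h0 : 0 ≤ t) (h1 : t ≤ 1) (ht : t ∉ Q2) :
    ∃ φ : ℝ, 0 < φ ∧ φ < Real.pi / 2 ∧ Real.cos φ ^ 2 = t ∧ Irrational (φ / Real.pi) := by
  have hs0 : 0 < Real.sqrt t := by
    rw [Real.sqrt_pos]
    rcases h0.lt_or_eq with h | h
    · exact h
    · exact absurd (h ▸ zero_mem_Q2) ht
  have hs1 : Real.sqrt t < 1 := by
    rcases h1.lt_or_eq with h | h
    · rw [Real.sqrt_lt' one_pos]; simpa using h
    · exact absurd (h ▸ one_mem_Q2) ht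
  refine ⟨Real.arccos (Real.sqrt t), Real.arccos_pos.2 hs1, Real.arccos_lt_pi_div_two.2 hs0, ?_, ?_⟩
  · rw [Real.cos_arccos (by linarith) hs1.le, Real.sq_sqrt h0]
  · rintro ⟨r, hr⟩
    apply ht
    refine ⟨r, ?_⟩
    have : Real.pi * (r : ℝ) = Real.arccos (Real.sqrt t) := by
      rw [hr]
      field_simp
    simp only [this]
    rw [Real.cos_arccos (by linarith) hs1.le, Real.sq_sqrt h0]

/-- two reflections at an irrational angle are conjugate -/
lemma exists_rot {e g : X} {f h : X →L[ℝ] ℝ} (he : Refl e f) (hg : Refl g h)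
    (ht : f g * h e ∉ Q2) :
    ∃ (W : X ≃ₗᵢ[ℝ] X) (c : ℝ), W e = c • g ∧ ∀ x, f x = 0 → h x = 0 → W x = x := by
  obtain ⟨φ, hφ0, hφ1, hφt, hirr⟩ := exists_angle (he.t_nonneg hg) (he.t_le_one hg) ht
  have hcos : 0 < Real.cos φ := Real.cos_pos_of_mem_Ioo ⟨by linarith [Real.pi_pos], hφ1⟩
  have hsin : Real.sin φ ≠ 0 := (Real.sin_pos_of_pos_of_lt_pi hφ0 (by linarith [Real.pi_pos])).ne'
  have hfg : f g ≠ 0 := by
    intro h0
    rw [h0, zero_mul] at hφt
    exact absurd (pow_eq_zero_iff two_ne_zero |>.1 hφt) hcos.ne'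
  set k : ℝ := Real.cos φ / f g with hk
  have hk0 : k ≠ 0 := div_ne_zero hcos.ne' hfg
  have hg' := hg.smul hk0
  have h1 : f (k • g) = Real.cos φ := by
    rw [map_smul, smul_eq_mul, hk]
    field_simp
  have h2 : (k⁻¹ • h) e = Real.cos φ := by
    simp only [_root_.smul_apply, smul_eq_mul]
    have hhe : h e = Real.cos φ ^ 2 / f g := by
      rw [hφt]; field_simp
    rw [hhe, hk]
    field_simp
  have hall := rot_isometric he hg' h1 h2 hsin hirr
  obtain ⟨k2, k3, k4⟩ := frame he.one hg'.one h1 h2 hsin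
  refine ⟨rotE he.one k2 k3 k4 hall φ, k, ?_, ?_⟩
  · rw [rotE_apply, rot_apply, he.one, k3, smul_smul]
    have : (Real.sin φ * 1 + (Real.cos φ - 1) * 0) * (Real.sin φ)⁻¹ = 1 := by
      field_simp
      ring
    rw [this]
    module
  · intro x hx1 hx2
    rw [rotE_apply, rot_apply]
    have : ((Real.sin φ)⁻¹ • (k⁻¹ • h - Real.cos φ • f)) x = 0 := by
      rw [_root_.smul_apply, _root_.sub_apply,
        _root_.smul_apply, _root_.smul_apply, hx1, hx2]
      simp
    rw [this, hx1]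
    simp

end Pool.Agent.H44.BH
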