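import Pool.Agent.H44.BH.Basis

set_option autoImplicit false

namespace Pool.Agent.H44.BH

open Finset

variable {X : Type*} [NormedAddCommGroup X] [NormedSpace ℝ X]
variable {b : ℕ → X} {c : ℕ → X →L[ℝ] ℝ}

lemma Coord.ext (hc : Coord b c) {x y : X} (h : ∀ j, c j x = c j y) : x = y := by
  have h1 := hc.hsum x
  have h2 := hc.hsum y
  simp only [h] at h1
  exact h1.unique h2

lemma Coord.coord_of_hasSum (hc : Coord b c) {a : ℕ → ℝ} {x : X}
    (h : HasSum (fun n => a n • b n) x) (j : ℕ) : c j x = a j := by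
  have h1 := h.map (c j : X →L[ℝ] ℝ) (c j).continuous
  have h2 : HasSum (fun n => c j (a n • b n)) (a j) := by
    have : (fun n => c j (a n • b n)) = fun n => if n = j then a j else 0 := by
      funext n
      rw [map_smul, hc.bio, smul_eq_mul]
      by_cases hn : n = j
      · subst hn; simp
      · simp [hn, Ne.symm hn]
    rw [this]
    exact hasSum_ite_eq j (a j)
  exact h1.unique h2

/-- sign of a set -/
noncomputable def sg (A : Set ℕ) (n : ℕ) : ℝ := by
  classical exact if n ∈ A then 1 else -1

lemma sg_of_mem {A : Set ℕ} {n : ℕ} (h : n ∈ A) : sg A n = 1 := by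
  classical
  simp [sg, h]

lemma sg_of_notMem {A : Set ℕ} {n : ℕ} (h : n ∉ A) : sg A n = -1 := by
  classical
  simp [sg, h]

lemma abs_sg (A : Set ℕ) (n : ℕ) : |sg A n| = 1 := by
  by_cases h : n ∈ A
  · rw [sg_of_mem h]; simp
  · rw [sg_of_notMem h]; simp

lemma sg_mul_self (A : Set ℕ) (n : ℕ) : sg A n * sg A n = 1 := by
  by_cases h : n ∈ A
  · rw [sg_of_mem h]; simp
  · rw [sg_of_notMem h]; simp

lemma exists_sign [CompleteSpace X] (hc : Coord b c) (A : Set ℕ) (x : X) :
    ∃ y, HasSum (fun n => (sg A n * c n x) • b n) y := by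
  have h1 : Summable (A.indicator fun n => c n x • b n) := (hc.hsum x).summable.indicator A
  have h2 := (h1.hasSum.const_smul (2 : ℝ)).sub (hc.hsum x)
  have h3 : (fun n => (sg A n * c n x) • b n)
      = fun n => (2 : ℝ) • A.indicator (fun n => c n x • b n) n - c n x • b n := by
    funext n
    by_cases h : n ∈ A
    · rw [sg_of_mem h, Set.indicator_of_mem h]; module
    · rw [sg_of_notMem h, Set.indicator_of_notMem h]; module
  rw [h3]
  exact ⟨_, h2⟩

/-- the sign operator of a set -/
noncomputable def sgMap [CompleteSpace X] (hc : Coord b c) (A : Set ℕ) (x : X) : X :=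
  (exists_sign hc A x).choose

lemma hasSum_sgMap [CompleteSpace X] (hc : Coord b c) (A : Set ℕ) (x : X) :
    HasSum (fun n => (sg A n * c n x) • b n) (sgMap hc A x) :=
  (exists_sign hc A x).choose_spec

lemma coord_sgMap [CompleteSpace X] (hc : Coord b c) (A : Set ℕ) (x : X) (j : ℕ) :
    c j (sgMap hc A x) = sg A j * c j x :=
  hc.coord_of_hasSum (hasSum_sgMap hc A x) j

lemma norm_sgMap [CompleteSpace X] (hb : UB b) (hc : Coord b c) (A : Set ℕ) (x : X) :
    ‖sgMap hc A x‖ = ‖x‖ := by
  have h1 := (hasSum_sgMap hc A x).norm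
  have h2 := (hc.hsum x).norm
  refine tendsto_nhds_unique h1 ?_
  convert h2 using 2
  exact hb.sign _ _ _ (abs_sg A)

/-- the sign operator as an isometric equivalence -/
noncomputable def sgE [CompleteSpace X] (hb : UB b) (hc : Coord b c) (A : Set ℕ) : X ≃ₗᵢ[ℝ] X where
  toLinearEquiv := LinearEquiv.ofInvolutive
    { toFun := sgMap hc A
      map_add' := by
        intro x y
        refine hc.ext fun j => ?_
        simp only [coord_sgMap, map_add]
        ring
      map_smul' := by
        intro k x
        refine hc.ext fun j => ?_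
        simp only [coord_sgMap, map_smul, smul_eq_mul, RingHom.id_apply]
        ring } (by
      intro x
      refine hc.ext fun j => ?_
      simp only [LinearMap.coe_mk, AddHom.coe_mk, coord_sgMap]
      rw [← mul_assoc, sg_mul_self, one_mul])
  norm_map' x := norm_sgMap hb hc A x

lemma sgE_apply [CompleteSpace X] (hb : UB b) (hc : Coord b c) (A : Set ℕ) (x : X) :
    sgE hb hc A x = sgMap hc A x := rfl

lemma coord_sgE [CompleteSpace X] (hb : UB b) (hc : Coord b c) (A : Set ℕ) (x : X) (j : ℕ) :
    c j (sgE hb hc A x) = sg A j * c j x := coord_sgMap hc A x j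

lemma sgE_basis [CompleteSpace X] (hb : UB b) (hc : Coord b c) (A : Set ℕ) (i : ℕ) :
    sgE hb hc A (b i) = sg A i • b i := by
  refine hc.ext fun j => ?_
  rw [coord_sgE, map_smul, hc.bio]
  by_cases h : j = i
  · subst h; simp
  · simp [h]

lemma sgE_symm [CompleteSpace X] (hb : UB b) (hc : Coord b c) (A : Set ℕ) (x : X) :
    (sgE hb hc A).symm x = sgE hb hc A x := by
  rw [LinearIsometryEquiv.symm_apply_eq]
  refine hc.ext fun j => ?_
  rw [coord_sgE, coord_sgE, ← mul_assoc, sg_mul_self, one_mul]

lemma Coord.refl [CompleteSpace X] (hb : UB b) (hc : Coord b c) (j : ℕ) : Refl (b j) (c j) := by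
  refine ⟨by simp [hc.bio], fun x => ?_⟩
  have h1 : x - (2 * c j x) • b j = sgE hb hc {j}ᶜ x := by
    refine hc.ext fun i => ?_
    rw [coord_sgE, map_sub, map_smul, hc.bio, smul_eq_mul]
    by_cases h : i = j
    · subst h
      rw [sg_of_notMem (by simp)]
      simp
      ring
    · rw [sg_of_mem (by simpa using h)]
      simp [h]
  rw [h1, LinearIsometryEquiv.norm_map]

/-- subsums of the weights -/
lemma hasSum_weight (hc : Coord b c) (e : X) (f : X →L[ℝ] ℝ) :
    HasSum (fun n => f (b n) * c n e) (f e) := by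
  have h1 := (hc.hsum e).map (f : X →L[ℝ] ℝ) f.continuous
  convert h1 using 1
  funext n
  simp [mul_comm]

lemma hasSum_weight_sg [CompleteSpace X] (hb : UB b) (hc : Coord b c) (A : Set ℕ) (e : X)
    (f : X →L[ℝ] ℝ) :
    HasSum (fun n => sg A n * (f (b n) * c n e)) (f (sgE hb hc A e)) := by
  have h1 := hasSum_weight hc (sgE hb hc A e) f
  convert h1 using 1
  funext n
  rw [coord_sgE]
  ring

end Pool.Agent.H44.BH
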